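import Pool.Agent.Lib.H52A.Final2

/-!
# MP_8d9e55_al: a positive proportion of solutions of an equation of length three

Let `N` be an infinite normal subgroup of a group `Γ` (for instance `N = Γ`) and `m` a finitely
additive probability on all subsets of `Γ` which is invariant under left translations by the
elements of `N`. If for some `a b c : Γ` and exponents `e₁ e₂ e₃ = ± 1` the word
`a x^e₁ b x^e₂ c x^e₃` takes, with positive mean, values in the set of the elements of `N` having
only finitely many `N`-conjugates, then `N` contains an infinite abelian subgroup.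
-/

set_option autoImplicit false

namespace Pool.Agent.Results.MP_8d9e55_al.ShortEquations

open Pool.Agent.H52A

/-- A positive proportion of solutions of an equation of length three forces an infinite abelian
subgroup. -/
theorem result {Γ : Type*} [Group Γ] (N : Subgroup Γ) (hN : N.Normal) (hinf : (N : Set Γ).Infinite)
    (m : Set Γ → ℝ) (h0 : ∀ A : Set Γ, 0 ≤ m A) (h1 : m Set.univ = 1)
    (hadd : ∀ A B : Set Γ, Disjoint A B → m (A ∪ B) = m A + m B)
    (hleft : ∀ g ∈ N, ∀ A : Set Γ, m ((fun x => g * x) '' A) = m A)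
    (a b c : Γ) (e₁ e₂ e₃ : ℤ)
    (he₁ : e₁ = 1 ∨ e₁ = -1) (he₂ : e₂ = 1 ∨ e₂ = -1) (he₃ : e₃ = 1 ∨ e₃ = -1)
    (hpos : 0 < m {x | a * x ^ e₁ * b * x ^ e₂ * c * x ^ e₃ ∈ FCset N}) :
    ∃ H : Subgroup Γ, H ≤ N ∧ (H : Set Γ).Infinite ∧ ∀ x ∈ H, ∀ y ∈ H, x * y = y * x :=
  shortL N hN hinf m h0 h1 hadd hleft a b c e₁ e₂ e₃ he₁ he₂ he₃ hpos

end Pool.Agent.Results.MP_8d9e55_al.ShortEquations
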